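import Pool.Agent.V1157.GA.Defs

/-!
# Group algebras acting on higher K-groups: definitions
-/

open CategoryTheory AlgebraicGeometry

universe u v w x y z

namespace Pool.Agent.V1157.GK

open Pool.Agent.H914 Pool.Agent.H914.VarClass Pool.Agent.H914.VarClass.Obj Pool.Agent.W492.BB
  Pool.Agent.V1157.GA

variable {k : Type u} [Field k] {𝒱 : VarClass k}

/-- The data of a cohomological functor: rational vector spaces `P(X)` for all varieties `X` over
`k`, for example the `K`-groups `K_m(X)_ℚ`, `m ≥ 1`, with pull-backs, push-forwards, and products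
with cycles. -/
structure KData (C : TheoryData.{u, v, 0} 𝒱 ℚ) where
  /-- the vector space `P(X)` -/
  A : 𝒱.Obj → Type z
  [group : ∀ X, AddCommGroup (A X)]
  [module : ∀ X, Module ℚ (A X)]
  /-- pull-back -/
  up : ∀ {X Y : 𝒱.Obj}, (X ⟶ Y) → (A Y →ₗ[ℚ] A X)
  /-- push-forward -/
  down : ∀ {X Y : 𝒱.Obj}, (X ⟶ Y) → (A X →ₗ[ℚ] A Y)
  /-- product with a cycle -/
  mul : ∀ {X : 𝒱.Obj}, C.A X →ₗ[ℚ] A X →ₗ[ℚ] A X

attribute [instance] KData.group KData.module

variable {C : TheoryData.{u, v, 0} 𝒱 ℚ}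

/-- The pull-back `f^* t`. -/
def KData.pull (P : KData.{u, v, z} C) {X Y : 𝒱.Obj} (f : X ⟶ Y) (t : P.A Y) : P.A X := P.up f t

/-- The push-forward `f_* t`. -/
def KData.push (P : KData.{u, v, z} C) {X Y : 𝒱.Obj} (f : X ⟶ Y) (t : P.A X) : P.A Y := P.down f t

/-- The product `a t` of the class `t` with the cycle `a`. -/
def KData.times (P : KData.{u, v, z} C) {X : 𝒱.Obj} (a : C.A X) (t : P.A X) : P.A X := P.mul a t

/-- The rules for products with cycles. -/
structure IsModule (P : KData.{u, v, z} C) : Prop where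
  one_mul : ∀ {X : 𝒱.Obj} (t : P.A X), P.times 1 t = t
  mul_mul : ∀ {X : 𝒱.Obj} (a b : C.A X) (t : P.A X),
    P.times (C.mul a b) t = P.times a (P.times b t)
  mul_swap : ∀ {X : 𝒱.Obj} (a b : C.A X) (t : P.A X),
    P.times a (P.times b t) = P.times b (P.times a t)

/-- Functoriality of pull-backs and push-forwards. -/
structure IsFunctor (P : KData.{u, v, z} C) : Prop where
  up_comp : ∀ {X Y Z : 𝒱.Obj} (f : X ⟶ Y) (g : Y ⟶ Z) (t : P.A Z),
    P.pull (f ≫ g) t = P.pull f (P.pull g t)
  down_comp : ∀ {X Y Z : 𝒱.Obj} (f : X ⟶ Y) (g : Y ⟶ Z) (t : P.A X),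
    P.push (f ≫ g) t = P.push g (P.push f t)

/-- Pull-backs of products, and the projection formulas. -/
structure HasProjection (P : KData.{u, v, z} C) : Prop where
  up_mul : ∀ {X Y : 𝒱.Obj} (f : X ⟶ Y) (a : C.A Y) (t : P.A Y),
    P.pull f (P.times a t) = P.times (C.up f a) (P.pull f t)
  proj : ∀ {X Y : 𝒱.Obj} (f : X ⟶ Y) (a : C.A Y) (t : P.A X),
    P.push f (P.times (C.up f a) t) = P.times a (P.push f t)
  proj' : ∀ {X Y : 𝒱.Obj} (f : X ⟶ Y) (a : C.A X) (t : P.A Y),
    P.push f (P.times a (P.pull f t)) = P.times (C.down f a) t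

/-- The rules for pull-backs, push-forwards and products with cycles. The last one is base change,
together with the vanishing of the functor on the point: for `K_m(X)_ℚ`, `m ≥ 1`, and `k` a finite
field or its algebraic closure, it holds because of the theorem of Quillen that `K_m(k)_ℚ = 0`. -/
structure IsK (P : KData.{u, v, z} C) : Prop where
  isModule : IsModule P
  isFunctor : IsFunctor P
  hasProjection : HasProjection P
  point : ∀ (X Y : 𝒱.Obj) (t : P.A X), P.push (snd X Y) (P.pull (fst X Y) t) = 0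

variable {G : Type x} [Group G] (R : Forms.{u, v, 0, x, y} G C) (P : KData.{u, v, z} C)

/-- The action of the Galois group `G` on `P(X)`, for varieties `X` over `F`. -/
structure KAct where
  /-- `act g X t` is `g t` -/
  act : G → ∀ X : R.Form, P.A (R.obj X) → P.A (R.obj X)

variable {R P} (E : KAct R P)

/-- The laws of the Galois actions on the spaces `P(X)`. -/
structure IsGaloisK : Prop where
  one : ∀ (X : R.Form) (t : P.A (R.obj X)), E.act 1 X t = t
  mul : ∀ (g h : G) (X : R.Form) (t : P.A (R.obj X)), E.act (g * h) X t = E.act g X (E.act h X t)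
  smul : ∀ (g : G) (X : R.Form) (c : ℚ) (t : P.A (R.obj X)),
    E.act g X (c • t) = c • E.act g X t
  push : ∀ (g : G) (X Y : R.Form) (f : R.obj X ⟶ R.obj Y) (t : P.A (R.obj X)),
    (R.obj X).dim = (R.obj Y).dim →
      E.act g Y (P.push f t) = P.push (R.conj g X Y f) (E.act g X t)

/-- The element `f` of the group algebra `ℚ[G]` applied to the class `t`. -/
noncomputable def appK (f : G →₀ ℚ) (X : R.Form) (t : P.A (R.obj X)) : P.A (R.obj X) :=
  ∑ g ∈ f.support, f g • E.act g X t

variable (R P) in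
/-- `P(X) = 0` for all varieties `X` over `F` of dimension `n`. -/
def Vanishes (n : ℕ) : Prop :=
  ∀ (X : R.Form) (t : P.A (R.obj X)), (R.obj X).dim = n → t = 0

/-- On the varieties over `F` of dimension `n`, the element `f` of the group algebra has rank at
most `D` on `P(X)`. -/
def RankAtMost (n : ℕ) (f : G →₀ ℚ) (D : ℕ) : Prop :=
  ∀ (X : R.Form) (t : Fin (D + 1) → P.A (R.obj X)), (R.obj X).dim = n →
    ∃ c : Fin (D + 1) → ℚ, c ≠ 0 ∧ ∑ i, c i • appK E f X (t i) = 0

end Pool.Agent.V1157.GK
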