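import Pool.Agent.V1157.GK.Defs
import Pool.Agent.V1157.GA.Core
import Pool.Agent.V1157.RC.Base

/-!
# Group algebras acting on higher K-groups
-/

open CategoryTheory AlgebraicGeometry

universe u v w x y z

namespace Pool.Agent.V1157.GK

open Pool.Agent.H914 Pool.Agent.H914.VarClass Pool.Agent.H914.VarClass.Obj Pool.Agent.W492.BB
  Pool.Agent.W550.Corr Pool.Agent.TH133 Pool.Agent.Y148.BB Pool.Agent.V1157.GA
open Pool.Agent.V1157.RC (pow_eq_sum)

set_option linter.unusedSectionVars false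

variable {k : Type u} [Field k] {𝒱 : VarClass k} {C : TheoryData.{u, v, 0} 𝒱 ℚ}
  [hC : IsChowProj C] {n : ℕ} {G : Type x} [Group G] {R : Forms.{u, v, 0, x, y} G C}
  {P : KData.{u, v, z} C} {E : KAct R P}

section laws

variable (hP : IsK P) {X Y Z : 𝒱.Obj}
include hP

lemma one_mul' (t : P.A X) : P.mul 1 t = t := hP.isModule.one_mul t

lemma mul_mul' (a b : C.A X) (t : P.A X) : P.mul (C.mul a b) t = P.mul a (P.mul b t) :=
  hP.isModule.mul_mul a b t

lemma mul_swap' (a b : C.A X) (t : P.A X) : P.mul a (P.mul b t) = P.mul b (P.mul a t) :=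
  hP.isModule.mul_swap a b t

lemma up_comp' (f : X ⟶ Y) (g : Y ⟶ Z) (t : P.A Z) : P.up (f ≫ g) t = P.up f (P.up g t) :=
  hP.isFunctor.up_comp f g t

lemma down_comp' (f : X ⟶ Y) (g : Y ⟶ Z) (t : P.A X) :
    P.down (f ≫ g) t = P.down g (P.down f t) := hP.isFunctor.down_comp f g t

lemma up_mul' (f : X ⟶ Y) (a : C.A Y) (t : P.A Y) :
    P.up f (P.mul a t) = P.mul (C.up f a) (P.up f t) := hP.hasProjection.up_mul f a t

lemma proj₁ (f : X ⟶ Y) (a : C.A Y) (t : P.A X) :
    P.down f (P.mul (C.up f a) t) = P.mul a (P.down f t) := hP.hasProjection.proj f a t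

lemma proj₂ (f : X ⟶ Y) (a : C.A X) (t : P.A Y) :
    P.down f (P.mul a (P.up f t)) = P.mul (C.down f a) t := hP.hasProjection.proj' f a t

lemma point' (t : P.A X) : P.down (snd X Y) (P.up (fst X Y) t) = 0 := hP.point X Y t

end laws

lemma down_up (hP : IsK P) {V S : 𝒱.Obj} {f : V ⟶ S} {κ : ℚ}
    (hf : C.down f 1 = κ • (1 : C.A S)) (t : P.A S) : P.down f (P.up f t) = κ • t := by
  have h1 := proj₂ hP f 1 t
  rw [one_mul' hP, hf, map_smul, LinearMap.smul_apply, one_mul' hP] at h1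
  exact h1

lemma down_up_ne (hP : IsK P) {V S : 𝒱.Obj} {f g : V ⟶ S} {a : C.A S} {c : ℚ}
    (h : C.down (Obj.lift f g) 1 = c • (C.up (fst S S) a + C.up (snd S S) a) ^ n) (t : P.A S) :
    P.down g (P.up f t) = 0 := by
  have e1 : P.down g (P.up f t) =
      P.down (snd S S) (P.mul (C.down (Obj.lift f g) 1) (P.up (fst S S) t)) := by
    rw [← proj₂ hP, one_mul' hP, ← up_comp' hP, ← down_comp' hP]
    simp
  rw [e1, h, pow_eq_sum, map_smul, LinearMap.smul_apply, map_smul, map_sum,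
    LinearMap.sum_apply, map_sum, Finset.sum_eq_zero, smul_zero]
  intro j _
  rw [map_smul, LinearMap.smul_apply, map_smul]
  have e2 : C.ext (a ^ j) (a ^ (n - j)) =
      C.mul (C.up (fst S S) (a ^ j)) (C.up (snd S S) (a ^ (n - j))) := rfl
  rw [e2, mul_mul' hP, mul_swap' hP, proj₁ hP, ← up_mul' hP, point' hP, map_zero, smul_zero]

/-- **If an element of the group algebra has bounded rank on `P(X)` for all `X` of dimension `n`,
then `P(X) = 0` for these `X`.** -/
theorem vanishes_of_rank (hPK : IsK P) (hE : IsGaloisK E) (hP : HasTwistedPowers R C n)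
    {f : G →₀ ℚ} (hf : f ≠ 0) {D : ℕ} (hD : RankAtMost E n f D) : Vanishes R P n := by
  intro S t hS
  obtain ⟨h₀, hh₀⟩ := Finsupp.support_nonempty_iff.2 hf
  obtain ⟨U, hU, hi, hM⟩ := exists_tp hS hP (f := f) (h₀ := h₀)
  obtain ⟨V, p, a, b, κ, h⟩ := hM (D + 1)
  obtain ⟨c, hc, hc2⟩ := hD V (fun m => P.up (p (QuotientGroup.mk 1) m) t) h.dimV
  have key := core (M := D + 1) (ρ := fun g s => E.act g V s) (τ := fun g s => E.act g S s)
    (DV := ⊤) (DS := ⊤)
    (fun i m => P.up (p i m)) (fun i m => P.down (p i m))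
    (fun i m s hs => Submodule.mem_top) (fun g i m v hv => by
      change P.down (p (g • i) m) (E.act g V v) = E.act g S (P.down (p i m) v)
      have h1 := hE.push g V S (p i m) v (by rw [h.dimS, h.dimV])
      rw [h.conj g i m m.2] at h1
      exact h1.symm)
    (fun s hs => hE.one S s) (fun g g' s hs => hE.mul g g' S s)
    (fun g c s hs => hE.smul g S c s) ⊥ ⊥
    (fun i m v hv => by
      rw [Submodule.mem_bot] at hv ⊢
      rw [hv, map_zero])
    (fun g s hs => by
      rw [Submodule.mem_bot] at hs ⊢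
      have h0 := hE.smul g S 0 0
      rw [zero_smul, zero_smul] at h0
      rw [hs]
      exact h0) hh₀
    (i₀ := QuotientGroup.mk 1) hi (t := t) Submodule.mem_top (fun i i' m m' hne => ?_) (κ := κ)
    h.hκ (fun i m => ?_) hc ((Submodule.mem_bot _).2 hc2)
  · exact (Submodule.mem_bot _).1 key
  · rw [Submodule.mem_bot]
    exact down_up_ne hPK (h.pq i i' m m.2 m' m'.2 (fun e => hne (by
      rw [Prod.mk.injEq] at e ⊢
      exact ⟨e.1, Fin.ext e.2⟩))) t
  · exact down_up hPK (h.pp i m m.2) t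

theorem rank_of_vanishes (h : Vanishes R P n) (f : G →₀ ℚ) : RankAtMost E n f 0 := by
  intro X t hX
  refine ⟨fun _ => 1, fun h0 => one_ne_zero (congrFun h0 0), ?_⟩
  exact h X _ hX

end Pool.Agent.V1157.GK
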